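import Pool.Agent.R271.Basic

/-!
# The pointwise BPB property and the BPBp do not pass to one-complemented subspaces of the range
-/

open Filter Topology Metric Set
open scoped ENNReal

namespace Pool.Agent.Results.MP_7aa09c_an.OneComplementedRange

/-- The pointwise Bishop-Phelps-Bollobas property of the pair `(X,Y)`. -/
def PointwiseBPB (X Y : Type) [NormedAddCommGroup X] [NormedSpace ℝ X] [NormedAddCommGroup Y]
    [NormedSpace ℝ Y] : Prop :=
  ∀ ε : ℝ, 0 < ε → ∃ η : ℝ, 0 < η ∧ ∀ T : X →L[ℝ] Y, ‖T‖ = 1 → ∀ x₀ : X, ‖x₀‖ = 1 →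
    1 - η < ‖T x₀‖ → ∃ S : X →L[ℝ] Y, ‖S‖ = 1 ∧ ‖S x₀‖ = 1 ∧ ‖S - T‖ < ε

/-- The Bishop-Phelps-Bollobas property of the pair `(X,Y)`. -/
def BPBp (X Y : Type) [NormedAddCommGroup X] [NormedSpace ℝ X] [NormedAddCommGroup Y]
    [NormedSpace ℝ Y] : Prop :=
  ∀ ε : ℝ, 0 < ε → ∃ η : ℝ, 0 < η ∧ ∀ T : X →L[ℝ] Y, ‖T‖ = 1 → ∀ x₀ : X, ‖x₀‖ = 1 →
    1 - η < ‖T x₀‖ → ∃ (x : X) (S : X →L[ℝ] Y), ‖x‖ = 1 ∧ ‖S‖ = 1 ∧ ‖S x‖ = 1 ∧
      ‖x - x₀‖ < ε ∧ ‖S - T‖ < ε

/-! ### A criterion for strict convexity -/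

lemma strictConvex_of {A H : Type*} [NormedAddCommGroup A] [NormedSpace ℝ A]
    [NormedAddCommGroup H] [NormedSpace ℝ H] [StrictConvexSpace ℝ H] (L : A →ₗ[ℝ] H)
    (hL : Function.Injective L) (p : A → ℝ) (hp : ∀ x y, p (x + y) ≤ p x + p y)
    (hn : ∀ x, ‖x‖ = p x + ‖L x‖) : StrictConvexSpace ℝ A := by
  apply StrictConvexSpace.of_norm_add_ne_two
  intro x y hx hy hne h2
  apply hne
  have h3 : ‖L x + L y‖ = ‖L x‖ + ‖L y‖ := by
    apply le_antisymm (norm_add_le _ _)
    have e1 := hn (x + y)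
    rw [h2, map_add] at e1
    have e2 := hn x
    have e3 := hn y
    rw [hx] at e2
    rw [hy] at e3
    have e4 := hp x y
    linarith
  have h4 : SameRay ℝ (L x) (L y) := sameRay_iff_norm_add.2 h3
  have h5 : SameRay ℝ x y := (hL.sameRay_map_iff).1 h4
  have hx0 : x ≠ 0 := by rintro rfl; rw [norm_zero] at hx; norm_num at hx
  have hy0 : y ≠ 0 := by rintro rfl; rw [norm_zero] at hy; norm_num at hy
  have h6 := (sameRay_iff_inv_norm_smul_eq_of_ne hx0 hy0).1 h5
  rwa [hx, hy, inv_one, one_smul, one_smul] at h6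

/-! ### The range space built from a space `E` -/

section range
variable (E : Type) [NormedAddCommGroup E] [NormedSpace ℝ E]

/-- The index set: each functional of the dual ball is repeated infinitely often. -/
abbrev Idx : Type := {f : StrongDual ℝ E // ‖f‖ ≤ 1} × ℕ

/-- Bounded functions on the index set. -/
abbrev Linf : Type := lp (fun _ : Idx E => ℝ) ∞

variable {E} in
/-- The canonical embedding. -/
noncomputable def J : E →ₗ[ℝ] Linf E where
  toFun y := ⟨fun γ => γ.1.1 y, memℓp_infty ⟨‖y‖, by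
    rintro _ ⟨γ, rfl⟩
    exact R271.abs_dual_le_norm γ.1.1 γ.1.2 y⟩⟩
  map_add' x y := by
    apply Subtype.ext
    funext γ
    exact map_add γ.1.1 x y
  map_smul' a x := by
    apply Subtype.ext
    funext γ
    exact map_smul γ.1.1 a x

variable {E}

lemma J_apply (y : E) (γ : Idx E) : J y γ = γ.1.1 y := rfl

variable (E) in
/-- The functions vanishing at infinity. -/
def C0 : Submodule ℝ (Linf E) where
  carrier := {h | ∀ ε : ℝ, 0 < ε → {γ | ε ≤ |h γ|}.Finite}
  add_mem' := by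
    intro a b ha hb ε hε
    refine ((ha (ε / 2) (by positivity)).union (hb (ε / 2) (by positivity))).subset ?_
    intro γ hγ
    by_contra hcon
    rw [Set.mem_union, not_or] at hcon
    obtain ⟨h1, h2⟩ := hcon
    have h1' : |a γ| < ε / 2 := not_le.1 h1
    have h2' : |b γ| < ε / 2 := not_le.1 h2
    have h3 : ε ≤ |(a + b : Linf E) γ| := hγ
    rw [lp.coeFn_add, Pi.add_apply] at h3
    have h4 := abs_add_le (a γ) (b γ)
    linarith
  zero_mem' := by
    intro ε hε
    have : {γ : Idx E | ε ≤ |(0 : Linf E) γ|} = ∅ := by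
      ext γ
      rw [lp.coeFn_zero]
      simp [hε]
    rw [this]
    exact Set.finite_empty
  smul_mem' := by
    intro c a ha ε hε
    refine (ha (ε / (|c| + 1)) (by positivity)).subset ?_
    intro γ hγ
    have h3 : ε ≤ |(c • a : Linf E) γ| := hγ
    rw [lp.coeFn_smul, Pi.smul_apply, smul_eq_mul, abs_mul] at h3
    show ε / (|c| + 1) ≤ |a γ|
    rw [div_le_iff₀ (by positivity)]
    nlinarith [abs_nonneg (a γ), abs_nonneg c]

lemma mem_C0 {h : Linf E} : h ∈ C0 E ↔ ∀ ε : ℝ, 0 < ε → {γ | ε ≤ |h γ|}.Finite := Iff.rfl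

lemma isClosed_C0 : IsClosed (C0 E : Set (Linf E)) := by
  rw [← isSeqClosed_iff_isClosed]
  intro u h hu hlim ε hε
  rw [Metric.tendsto_atTop] at hlim
  obtain ⟨N, hN⟩ := hlim (ε / 2) (by positivity)
  refine (hu N (ε / 2) (by positivity)).subset ?_
  intro γ hγ
  have h1 : |(u N - h : Linf E) γ| ≤ ‖u N - h‖ :=
    lp.norm_apply_le_norm (by simp : (∞ : ℝ≥0∞) ≠ 0) (u N - h) γ
  have h2 : ‖u N - h‖ < ε / 2 := by rw [← dist_eq_norm]; exact hN N le_rfl
  rw [lp.coeFn_sub, Pi.sub_apply] at h1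
  have h3 : ε ≤ |h γ| := hγ
  show ε / 2 ≤ |u N γ|
  have h4 := abs_sub_abs_le_abs_sub (h γ) (u N γ)
  rw [abs_sub_comm] at h4
  linarith

instance : CompleteSpace (C0 E) := isClosed_C0.completeSpace_coe

lemma norm_le_J_add (y : E) (z : C0 E) : ‖y‖ ≤ ‖J y + (z : Linf E)‖ := by
  obtain ⟨f, hf1, hf2⟩ := exists_dual_vector'' ℝ y
  apply le_of_forall_pos_le_add
  intro ε hε
  have hfin := z.2 ε hε
  obtain ⟨n, hn⟩ : ∃ n : ℕ, |(z : Linf E) (⟨f, hf1⟩, n)| < ε := by
    by_contra hcon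
    push Not at hcon
    have hinj : Function.Injective (fun n : ℕ => ((⟨f, hf1⟩, n) : Idx E)) := by
      intro a b hab
      exact (Prod.ext_iff.1 hab).2
    have h1 : Set.range (fun n : ℕ => ((⟨f, hf1⟩, n) : Idx E)) ⊆
        {γ | ε ≤ |(z : Linf E) γ|} := by
      rintro _ ⟨n, rfl⟩
      exact hcon n
    exact (Set.infinite_range_of_injective hinj) (hfin.subset h1)
  have h1 : |(J y + (z : Linf E)) (⟨f, hf1⟩, n)| ≤ ‖J y + (z : Linf E)‖ :=
    lp.norm_apply_le_norm (by simp : (∞ : ℝ≥0∞) ≠ 0) (J y + (z : Linf E)) (⟨f, hf1⟩, n)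
  rw [lp.coeFn_add, Pi.add_apply, J_apply] at h1
  have h2 : f y = ‖y‖ := by simpa using hf2
  have h3 : (⟨f, hf1⟩ : {f : StrongDual ℝ E // ‖f‖ ≤ 1}).1 y = f y := rfl
  rw [h3, h2] at h1
  have h4 := (abs_le.1 h1).2
  have h5 := (abs_lt.1 hn).1
  linarith

lemma norm_J (y : E) : ‖J y‖ = ‖y‖ := by
  apply le_antisymm
  · apply lp.norm_le_of_forall_le (norm_nonneg _)
    intro γ
    exact R271.abs_dual_le_norm γ.1.1 γ.1.2 y
  · have := norm_le_J_add y 0
    simpa using this

variable (E) in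
/-- The range space as a vector space. -/
def YY : Type := E × C0 E

noncomputable instance : AddCommGroup (YY E) := inferInstanceAs (AddCommGroup (E × C0 E))

noncomputable instance : Module ℝ (YY E) := inferInstanceAs (Module ℝ (E × C0 E))

variable (E) in
/-- The embedding of the range space in the bounded functions. -/
noncomputable def K : YY E →ₗ[ℝ] Linf E where
  toFun p := J p.1 + (p.2 : Linf E)
  map_add' p q := by
    show J (p.1 + q.1) + ((p.2 + q.2 : C0 E) : Linf E) = _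
    rw [map_add, Submodule.coe_add]; abel
  map_smul' a p := by
    show J (a • p.1) + ((a • p.2 : C0 E) : Linf E) = _
    rw [map_smul, Submodule.coe_smul, RingHom.id_apply, smul_add]

lemma K_apply (p : YY E) : K E p = J p.1 + (p.2 : Linf E) := rfl

lemma K_injective : Function.Injective (K E) := by
  rw [injective_iff_map_eq_zero]
  intro p hp
  have h1 := norm_le_J_add p.1 p.2
  rw [← K_apply, hp, norm_zero, norm_le_zero_iff] at h1
  have h2 : (p.2 : Linf E) = 0 := by
    rw [K_apply, h1, map_zero, zero_add] at hp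
    exact hp
  exact Prod.ext h1 (Subtype.ext h2)

noncomputable instance : NormedAddCommGroup (YY E) :=
  NormedAddCommGroup.induced (YY E) (Linf E) (K E) K_injective

noncomputable instance : NormedSpace ℝ (YY E) := NormedSpace.induced ℝ (YY E) (Linf E) (K E)

lemma norm_YY (p : YY E) : ‖p‖ = ‖K E p‖ := rfl

lemma norm_fst_le (p : YY E) : ‖p.1‖ ≤ ‖p‖ := norm_le_J_add p.1 p.2

lemma norm_snd_le (p : YY E) : ‖p.2‖ ≤ 2 * ‖p‖ := by
  have h1 : (p.2 : Linf E) = K E p - J p.1 := by rw [K_apply]; abel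
  have h2 : ‖(p.2 : Linf E)‖ ≤ ‖K E p‖ + ‖J p.1‖ := by rw [h1]; exact norm_sub_le _ _
  rw [norm_J] at h2
  have h3 := norm_fst_le p
  have h4 : ‖p.2‖ = ‖(p.2 : Linf E)‖ := rfl
  rw [h4]
  have h5 : ‖K E p‖ = ‖p‖ := rfl
  linarith

instance [CompleteSpace E] : CompleteSpace (YY E) := by
  apply Metric.complete_of_cauchySeq_tendsto
  intro u hu
  have h1 : CauchySeq (fun n => (u n).1) := by
    rw [Metric.cauchySeq_iff] at hu ⊢
    intro ε hε
    obtain ⟨N, hN⟩ := hu ε hε
    refine ⟨N, fun m hm n hn => ?_⟩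
    rw [dist_eq_norm]
    refine lt_of_le_of_lt ?_ (hN m hm n hn)
    rw [dist_eq_norm]
    exact norm_fst_le (u m - u n)
  have h2 : CauchySeq (fun n => (u n).2) := by
    rw [Metric.cauchySeq_iff] at hu ⊢
    intro ε hε
    obtain ⟨N, hN⟩ := hu (ε / 2) (by positivity)
    refine ⟨N, fun m hm n hn => ?_⟩
    rw [dist_eq_norm]
    have h3 := hN m hm n hn
    rw [dist_eq_norm] at h3
    have h4 := norm_snd_le (u m - u n)
    have h5 : (u m - u n).2 = (u m).2 - (u n).2 := rfl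
    rw [h5] at h4
    linarith
  obtain ⟨a, ha⟩ := cauchySeq_tendsto_of_complete h1
  obtain ⟨b, hb⟩ := cauchySeq_tendsto_of_complete h2
  refine ⟨((a, b) : E × C0 E), ?_⟩
  rw [tendsto_iff_norm_sub_tendsto_zero]
  have h3 : Tendsto (fun n => ‖(u n).1 - a‖ + ‖(u n).2 - b‖) atTop (𝓝 0) := by
    have h4 := (tendsto_iff_norm_sub_tendsto_zero.1 ha).add
      (tendsto_iff_norm_sub_tendsto_zero.1 hb)
    simpa using h4
  refine squeeze_zero (fun n => norm_nonneg _) (fun n => ?_) h3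
  rw [norm_YY, K_apply]
  refine (norm_add_le _ _).trans ?_
  rw [norm_J]
  exact le_rfl

/-- The projection. -/
noncomputable def P : YY E →L[ℝ] YY E :=
  LinearMap.mkContinuous
    { toFun := fun p => ((p.1, 0) : E × C0 E)
      map_add' := fun p q => Prod.ext rfl (add_zero (0 : C0 E)).symm
      map_smul' := fun a p => Prod.ext rfl (smul_zero a : a • (0 : C0 E) = 0).symm } 1 (by
    intro p
    rw [one_mul, norm_YY, K_apply]
    show ‖J p.1 + ((0 : C0 E) : Linf E)‖ ≤ ‖p‖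
    rw [Submodule.coe_zero, add_zero, norm_J]
    exact norm_fst_le p)

/-- The inclusion of `E`. -/
noncomputable def inY (y : E) : YY E := ((y, 0) : E × C0 E)

lemma P_inY (y : E) : P (inY y) = inY y := rfl

lemma le_norm_inY (y : E) : ‖y‖ ≤ ‖inY y‖ := norm_fst_le (inY y)

/-- The isometry of `E` onto the complemented subspace. -/
noncomputable def incl : E →ₗᵢ[ℝ] LinearMap.range (P (E := E)).toLinearMap where
  toFun y := ⟨((y, 0) : E × C0 E), ⟨((y, 0) : E × C0 E), rfl⟩⟩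
  map_add' x y := Subtype.ext (Prod.ext rfl (add_zero (0 : C0 E)).symm)
  map_smul' a x := Subtype.ext (Prod.ext rfl (smul_zero a : a • (0 : C0 E) = 0).symm)
  norm_map' y := by
    show ‖J y + ((0 : C0 E) : Linf E)‖ = ‖y‖
    rw [Submodule.coe_zero, add_zero, norm_J]

lemma incl_surj : Function.Surjective (incl (E := E)) := by
  rintro ⟨_, ⟨p, rfl⟩⟩
  exact ⟨p.1, rfl⟩

/-- The unit vector at `γ`. -/
noncomputable def eC (γ : Idx E) : C0 E := by
  classical
  exact ⟨⟨fun δ => if δ = γ then 1 else 0, memℓp_infty ⟨1, by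
    rintro _ ⟨δ, rfl⟩
    dsimp only
    split_ifs <;> simp⟩⟩, by
    intro ε hε
    refine (Set.finite_singleton γ).subset ?_
    intro δ hδ
    by_contra hne
    have h1 : ε ≤ |if δ = γ then (1 : ℝ) else 0| := hδ
    rw [if_neg (fun h => hne (Set.mem_singleton_iff.2 h)), abs_zero] at h1
    linarith⟩

open Classical in
lemma eC_apply (γ δ : Idx E) : (eC γ : Linf E) δ = if δ = γ then 1 else 0 := rfl

/-- The unit vector in the range space. -/
noncomputable def eY (γ : Idx E) : YY E := ((0, eC γ) : E × C0 E)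

lemma K_eY (γ : Idx E) : K E (eY γ) = (eC γ : Linf E) := by
  rw [K_apply]
  show J (0 : E) + (eC γ : Linf E) = _
  rw [map_zero, zero_add]

/-- Coordinates. -/
noncomputable def co (γ : Idx E) : StrongDual ℝ (YY E) :=
  LinearMap.mkContinuous
    { toFun := fun p => K E p γ
      map_add' := fun p q => by rw [map_add, lp.coeFn_add, Pi.add_apply]
      map_smul' := fun a p => by rw [map_smul, lp.coeFn_smul, Pi.smul_apply]; rfl } 1 (by
    intro p
    rw [one_mul]
    exact lp.norm_apply_le_norm (by simp : (∞ : ℝ≥0∞) ≠ 0) (K E p) γ)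

lemma co_apply (γ : Idx E) (p : YY E) : co γ p = K E p γ := rfl

lemma norm_le_of_co {p : YY E} {C : ℝ} (hC : 0 ≤ C) (h : ∀ γ, |co γ p| ≤ C) : ‖p‖ ≤ C :=
  lp.norm_le_of_forall_le (f := K E p) hC h

lemma abs_co_le (γ : Idx E) (p : YY E) : |co γ p| ≤ ‖p‖ :=
  lp.norm_apply_le_norm (by simp : (∞ : ℝ≥0∞) ≠ 0) (K E p) γ

open Classical in
lemma co_eY (γ δ : Idx E) : co δ (eY γ) = if δ = γ then 1 else 0 := by
  rw [co_apply, K_eY, eC_apply]

/-- The functional Bishop-Phelps-Bollobas property of a space. -/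
def FuncBPB (X : Type) [NormedAddCommGroup X] [NormedSpace ℝ X] : Prop :=
  ∀ ε : ℝ, 0 < ε → ∃ η : ℝ, 0 < η ∧ ∀ g : StrongDual ℝ X, ‖g‖ ≤ 1 → ∀ x : X, ‖x‖ = 1 →
    1 - η < g x → ∃ f : StrongDual ℝ X, ‖f‖ = 1 ∧ f x = 1 ∧ ‖f - g‖ < ε

lemma pointwise_of_func {X : Type} [NormedAddCommGroup X] [NormedSpace ℝ X] (hX : FuncBPB X) :
    PointwiseBPB X (YY E) := by
  classical
  intro ε hε
  obtain ⟨η, hη, h⟩ := hX ε hε
  refine ⟨min η 1, lt_min hη one_pos, fun T hT x hx hTx => ?_⟩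
  have hη1 : (0 : ℝ) ≤ 1 - min η 1 := by linarith [min_le_right η 1]
  obtain ⟨γ, hγ⟩ : ∃ γ, 1 - min η 1 < |co γ (T x)| := by
    by_contra hcon
    push Not at hcon
    have := norm_le_of_co hη1 hcon
    linarith
  obtain ⟨s, hs1, hs2⟩ : ∃ s : ℝ, |s| = 1 ∧ s * co γ (T x) = |co γ (T x)| := by
    rcases le_total 0 (co γ (T x)) with h0 | h0
    · exact ⟨1, by simp, by rw [one_mul, abs_of_nonneg h0]⟩
    · exact ⟨-1, by simp, by rw [abs_of_nonpos h0]; ring⟩
  have hss : s * s = 1 := by rw [← abs_mul_abs_self, hs1]; norm_num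
  set g : StrongDual ℝ X := s • (co γ).comp T with hg
  have hgx : ∀ z, g z = s * co γ (T z) := fun z => rfl
  have hg1 : ‖g‖ ≤ 1 := by
    apply ContinuousLinearMap.opNorm_le_bound _ zero_le_one
    intro z
    rw [hgx, norm_mul, Real.norm_eq_abs, hs1, one_mul, one_mul]
    refine (abs_co_le γ (T z)).trans ?_
    have := T.le_opNorm z
    rwa [hT, one_mul] at this
  obtain ⟨f, hf1, hfx, hfg⟩ := h g hg1 x hx (by
    rw [hgx, hs2]
    have := min_le_left η 1
    linarith)
  let S : X →L[ℝ] YY E := T + (s • (f - g)).smulRight (eY γ)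
  have hSz : ∀ z, S z = T z + (s * (f z - g z)) • eY γ := fun z => rfl
  have hco : ∀ δ z, co δ (S z) = if δ = γ then s * f z else co δ (T z) := by
    intro δ z
    rw [hSz, map_add, map_smul, co_eY, smul_eq_mul]
    split_ifs with hδ
    · subst hδ
      rw [mul_one, mul_sub, hgx]
      have : s * (s * co δ (T z)) = co δ (T z) := by rw [← mul_assoc, hss, one_mul]
      rw [this]; ring
    · rw [mul_zero, add_zero]
  have hS1 : ∀ z, ‖S z‖ ≤ ‖z‖ := by
    intro z
    apply norm_le_of_co (norm_nonneg _)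
    intro δ
    rw [hco]
    split_ifs
    · rw [abs_mul, hs1, one_mul]
      have := f.le_opNorm z
      rwa [hf1, one_mul] at this
    · refine (abs_co_le δ (T z)).trans ?_
      have := T.le_opNorm z
      rwa [hT, one_mul] at this
  have hSx : ‖S x‖ = 1 := by
    apply le_antisymm ((hS1 x).trans hx.le)
    have h1 := abs_co_le γ (S x)
    rw [hco, if_pos rfl, hfx, mul_one, hs1] at h1
    exact h1
  refine ⟨S, ?_, hSx, ?_⟩
  · apply le_antisymm
    · apply ContinuousLinearMap.opNorm_le_bound _ zero_le_one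
      intro z
      rw [one_mul]
      exact hS1 z
    · have h1 := S.le_opNorm x
      rwa [hSx, hx, mul_one] at h1
  · refine lt_of_le_of_lt ?_ hfg
    apply ContinuousLinearMap.opNorm_le_bound _ (norm_nonneg _)
    intro z
    have e1 : (S - T) z = (s * (f z - g z)) • eY γ := by
      rw [sub_apply, hSz]; abel
    rw [e1]
    apply norm_le_of_co (by positivity)
    intro δ
    rw [map_smul, co_eY, smul_eq_mul]
    split_ifs
    · rw [mul_one, abs_mul, hs1, one_mul]
      exact (f - g).le_opNorm z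
    · rw [mul_zero, abs_zero]; positivity

end range

/-! ### Duals of strictly convex finite-dimensional spaces -/

section generic
variable {V : Type} [NormedAddCommGroup V] [NormedSpace ℝ V] [FiniteDimensional ℝ V]

/-- Every functional on the dual of `V` is an evaluation. -/
lemma exists_eval (F : StrongDual ℝ (StrongDual ℝ V)) :
    ∃ w : V, ‖w‖ ≤ ‖F‖ ∧ ∀ f : StrongDual ℝ V, F f = f w := by
  let G : Module.Dual ℝ (Module.Dual ℝ V) :=
    F.toLinearMap ∘ₗ (LinearMap.toContinuousLinearMap : (V →ₗ[ℝ] ℝ) ≃ₗ[ℝ] (V →L[ℝ] ℝ)).toLinearMap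
  obtain ⟨w, hw⟩ := (Module.evalEquiv ℝ V).surjective G
  have h1 : ∀ f : StrongDual ℝ V, F f = f w := by
    intro f
    have h2 := LinearMap.congr_fun hw f.toLinearMap
    rw [Module.evalEquiv_apply, Module.Dual.eval_apply] at h2
    have h3 : G f.toLinearMap = F f := by
      show F (LinearMap.toContinuousLinearMap f.toLinearMap) = F f
      congr 1
    rw [← h3, ← h2]
    rfl
  refine ⟨w, ?_, h1⟩
  obtain ⟨f, hf1, hf2⟩ := exists_dual_vector'' ℝ w
  have h4 : f w = ‖w‖ := by simpa using hf2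
  calc ‖w‖ = F f := by rw [h1, h4]
    _ ≤ |F f| := le_abs_self _
    _ ≤ ‖F‖ * ‖f‖ := F.le_opNorm f
    _ ≤ ‖F‖ * 1 := mul_le_mul_of_nonneg_left hf1 (norm_nonneg F)
    _ = ‖F‖ := mul_one _

variable [StrictConvexSpace ℝ V]

/-- Smoothness of the dual. -/
lemma smooth_X (x : StrongDual ℝ V) (hx : ‖x‖ = 1) (F G : StrongDual ℝ (StrongDual ℝ V))
    (hF : ‖F‖ ≤ 1) (hG : ‖G‖ ≤ 1) (hFx : F x = 1) (hGx : G x = 1) : F = G := by
  obtain ⟨w, hw, hFw⟩ := exists_eval F
  obtain ⟨v, hv, hGv⟩ := exists_eval G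
  have hwv : w = v := by
    by_contra hne
    have h1 := norm_combo_lt_of_ne (hw.trans hF) (hv.trans hG) hne
      (show (0 : ℝ) < 1 / 2 by norm_num) (show (0 : ℝ) < 1 / 2 by norm_num) (by norm_num)
    have h2 : x ((1 / 2 : ℝ) • w + (1 / 2 : ℝ) • v) = 1 := by
      rw [map_add, map_smul, map_smul, ← hFw, ← hGv, hFx, hGx]; norm_num
    have h3 := R271.dual_le_norm x hx.le ((1 / 2 : ℝ) • w + (1 / 2 : ℝ) • v)
    linarith
  ext f
  rw [hFw, hGv, hwv]

lemma func_of_smooth {D : Type} [NormedAddCommGroup D] [NormedSpace ℝ D] [FiniteDimensional ℝ D]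
    (hsm : ∀ x : D, ‖x‖ = 1 → ∀ F G : StrongDual ℝ D, ‖F‖ ≤ 1 → ‖G‖ ≤ 1 → F x = 1 → G x = 1 →
      F = G) : FuncBPB D := by
  intro ε hε
  by_contra hcon
  push Not at hcon
  have h1 : ∀ n : ℕ, ∃ (g : StrongDual ℝ D) (x : D), ‖g‖ ≤ 1 ∧
      ‖x‖ = 1 ∧ 1 - 1 / ((n : ℝ) + 1) < g x ∧
      ∀ f : StrongDual ℝ D, ‖f‖ = 1 → f x = 1 → ε ≤ ‖f - g‖ := by
    intro n
    obtain ⟨g, hg, x, hx, hgx, hf⟩ := hcon (1 / ((n : ℝ) + 1)) (by positivity)
    exact ⟨g, x, hg, hx, hgx, hf⟩
  choose g x hg hx hgx hbad using h1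
  have h2 : ∀ n, ∃ f : StrongDual ℝ D, ‖f‖ = 1 ∧ f (x n) = 1 := by
    intro n
    obtain ⟨f, hf1, hf2⟩ := exists_dual_vector ℝ (x n) (by rw [hx]; norm_num)
    exact ⟨f, hf1, by rw [hf2, hx]; simp⟩
  choose f hf hfx using h2
  have : ProperSpace (D) := FiniteDimensional.proper ℝ _
  have : FiniteDimensional ℝ (StrongDual ℝ D) := inferInstance
  have : ProperSpace (StrongDual ℝ D) := FiniteDimensional.proper ℝ (StrongDual ℝ D)
  have hcomp : IsCompact ((closedBall (0 : D) 1) ×ˢ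
      ((closedBall (0 : StrongDual ℝ D) 1) ×ˢ
      (closedBall (0 : StrongDual ℝ D) 1))) :=
    (isCompact_closedBall _ _).prod ((isCompact_closedBall _ _).prod (isCompact_closedBall _ _))
  obtain ⟨⟨x', g', f'⟩, hmem, φ, hφ, hlim⟩ := hcomp.tendsto_subseq
    (x := fun n => (x n, g n, f n))
    (fun n => ⟨by simp [hx], by simpa using hg n, by simp [hf]⟩)
  have hlx : Tendsto (fun n => x (φ n)) atTop (𝓝 x') :=
    (continuous_fst.tendsto _).comp hlim
  have hlg : Tendsto (fun n => g (φ n)) atTop (𝓝 g') :=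
    ((continuous_fst.comp continuous_snd).tendsto _).comp hlim
  have hlf : Tendsto (fun n => f (φ n)) atTop (𝓝 f') :=
    ((continuous_snd.comp continuous_snd).tendsto _).comp hlim
  obtain ⟨hx', hg', hf'⟩ := hmem
  simp only [mem_closedBall, dist_zero_right] at hx' hg' hf'
  have hbil : ∀ (k : ℕ → StrongDual ℝ D) (k' : StrongDual ℝ D),
      Tendsto k atTop (𝓝 k') → Tendsto (fun n => k n (x (φ n))) atTop (𝓝 (k' x')) := by
    intro k k' hk
    have := (isBoundedBilinearMap_apply (𝕜 := ℝ) (E := D)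
      (F := ℝ)).continuous.tendsto (k', x')
    exact this.comp (hk.prodMk_nhds hlx)
  have hfx' : f' x' = 1 := by
    have h3 := hbil _ _ hlf
    simp only [hfx] at h3
    exact tendsto_nhds_unique h3 tendsto_const_nhds
  have hx1 : ‖x'‖ = 1 := by
    have h3 := hlx.norm
    simp only [hx] at h3
    exact (tendsto_nhds_unique tendsto_const_nhds h3).symm
  have hgx' : g' x' = 1 := by
    apply le_antisymm
    · calc g' x' ≤ ‖x'‖ := R271.dual_le_norm g' hg' x'
        _ = 1 := hx1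
    · have h3 := hbil _ _ hlg
      have h4 : Tendsto (fun n : ℕ => 1 - 1 / (((φ n : ℕ) : ℝ) + 1)) atTop (𝓝 1) := by
        have h5 := (tendsto_one_div_add_atTop_nhds_zero_nat (𝕜 := ℝ)).comp hφ.tendsto_atTop
        simpa using h5.const_sub 1
      exact le_of_tendsto_of_tendsto' h4 h3 fun n => (hgx (φ n)).le
  have heq : f' = g' := hsm x' hx1 f' g' hf' hg' hfx' hgx'
  have h5 : Tendsto (fun n => ‖f (φ n) - g (φ n)‖) atTop (𝓝 0) := by
    have h6 := (hlf.sub hlg).norm
    rwa [heq, sub_self, norm_zero] at h6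
  obtain ⟨n, hn⟩ := (h5.eventually (Iio_mem_nhds hε)).exists
  have h7 := hbad (φ n) (f (φ n)) (hf _) (hfx _)
  have h8 : ‖f (φ n) - g (φ n)‖ < ε := hn
  linarith

lemma func_X : FuncBPB (StrongDual ℝ V) :=
  func_of_smooth fun x hx F G hF hG hFx hGx => smooth_X x hx F G hF hG hFx hGx
end generic

/-! ### The domain: a smooth plane with a flat face -/

/-- The plane with norm `|Re z| + |z|`, as a subspace of `ℝ ⊕_1 ℂ`. -/
def WSub : Submodule ℝ (WithLp 1 (ℝ × ℂ)) where
  carrier := {p | p.fst = p.snd.re}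
  add_mem' := by
    intro a b ha hb
    show (a + b).fst = (a + b).snd.re
    rw [WithLp.add_fst, WithLp.add_snd, Complex.add_re]
    rw [show a.fst = a.snd.re from ha, show b.fst = b.snd.re from hb]
  zero_mem' := by
    show (0 : WithLp 1 (ℝ × ℂ)).fst = (0 : WithLp 1 (ℝ × ℂ)).snd.re
    simp
  smul_mem' := by
    intro c a ha
    show (c • a).fst = (c • a).snd.re
    rw [WithLp.smul_fst, WithLp.smul_snd, Complex.smul_re, show a.fst = a.snd.re from ha]

/-- The plane with norm `|Re z| + |z|`. -/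
def W : Type := WSub

noncomputable instance : NormedAddCommGroup W := inferInstanceAs (NormedAddCommGroup WSub)

noncomputable instance : NormedSpace ℝ W := inferInstanceAs (NormedSpace ℝ WSub)

/-- The complex coordinate. -/
noncomputable def toC : W →ₗ[ℝ] ℂ where
  toFun w := w.1.snd
  map_add' _ _ := rfl
  map_smul' _ _ := rfl

/-- The vector with complex coordinate `z`. -/
noncomputable def ofC : ℂ →ₗ[ℝ] W where
  toFun z := (⟨WithLp.toLp 1 (z.re, z), rfl⟩ : WSub)
  map_add' _ _ := rfl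
  map_smul' a z := by
    apply Subtype.ext
    show WithLp.toLp 1 ((a • z).re, a • z) = a • WithLp.toLp 1 (z.re, z)
    rw [← WithLp.toLp_smul, Prod.smul_mk, Complex.smul_re]

lemma toC_ofC (z : ℂ) : toC (ofC z) = z := rfl

lemma norm_W (w : W) : ‖w‖ = |(toC w).re| + ‖toC w‖ := by
  have h1 : ‖w‖ = ‖w.1.fst‖ + ‖w.1.snd‖ := WithLp.prod_norm_eq_of_L1 w.1
  rw [h1, show w.1.fst = w.1.snd.re from w.2]
  rfl

lemma toC_injective : Function.Injective toC := by
  rw [injective_iff_map_eq_zero]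
  intro w hw
  rw [← norm_le_zero_iff, norm_W, hw]
  simp

lemma ofC_toC (w : W) : ofC (toC w) = w := toC_injective (toC_ofC _)

instance : FiniteDimensional ℝ W := Module.Finite.of_injective toC toC_injective

instance : StrictConvexSpace ℝ W :=
  strictConvex_of toC toC_injective (fun w => |(toC w).re|) (fun x y => by
    rw [map_add, Complex.add_re]; exact abs_add_le _ _) norm_W

/-- The domain space. -/
abbrev X : Type := StrongDual ℝ W

/-- The functionals `w ↦ t Re w + s Im w`. -/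
noncomputable def fts (t s : ℝ) : X :=
  LinearMap.toContinuousLinearMap
    { toFun := fun w : W => t * (toC w).re + s * (toC w).im
      map_add' := by
        intro a b
        rw [map_add, Complex.add_re, Complex.add_im]; ring
      map_smul' := by
        intro c a
        rw [map_smul, Complex.smul_re, Complex.smul_im, RingHom.id_apply]
        simp only [smul_eq_mul]; ring }

lemma fts_apply (t s : ℝ) (w : W) : fts t s w = t * (toC w).re + s * (toC w).im := rfl

lemma fts_surj (f : X) : ∃ t s, f = fts t s := by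
  refine ⟨f (ofC 1), f (ofC Complex.I), ?_⟩
  ext w
  rw [fts_apply]
  have h1 : w = (toC w).re • ofC 1 + (toC w).im • ofC Complex.I := by
    rw [← map_smul, ← map_smul, ← map_add]
    apply toC_injective
    rw [toC_ofC]
    apply Complex.ext <;> simp
  conv_lhs => rw [h1]
  rw [map_add, map_smul, map_smul, smul_eq_mul, smul_eq_mul]
  ring

lemma norm_fts {t s : ℝ} (h : |t| ≤ |s|) : ‖fts t s‖ = |s| := by
  apply le_antisymm
  · apply ContinuousLinearMap.opNorm_le_bound _ (abs_nonneg _)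
    intro w
    rw [fts_apply, norm_W, Real.norm_eq_abs]
    have h1 : |t * (toC w).re + s * (toC w).im| ≤ |t| * |(toC w).re| + |s| * |(toC w).im| := by
      rw [← abs_mul, ← abs_mul]; exact abs_add_le _ _
    have h2 := Complex.abs_im_le_norm (toC w)
    have h3 : |t| * |(toC w).re| ≤ |s| * |(toC w).re| :=
      mul_le_mul_of_nonneg_right h (abs_nonneg _)
    have h4 : |s| * |(toC w).im| ≤ |s| * ‖toC w‖ := mul_le_mul_of_nonneg_left h2 (abs_nonneg _)
    rw [mul_add]
    linarith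
  · have h1 := (fts t s).le_opNorm (ofC Complex.I)
    rw [fts_apply, norm_W, toC_ofC] at h1
    simpa using h1

/-! ### The strictly convex space `E` -/

/-- Sequences with norm `‖y‖_∞ + ‖(2^{-n} y_n)‖_2`. -/
def ESub : Submodule ℝ (WithLp 1 (lp (fun _ : ℕ => ℝ) ∞ × lp (fun _ : ℕ => ℝ) 2)) where
  carrier := {p | ∀ n, p.snd n = (1 / 2) ^ n * p.fst n}
  add_mem' := by
    intro a b ha hb n
    rw [WithLp.add_fst, WithLp.add_snd, lp.coeFn_add, lp.coeFn_add, Pi.add_apply, Pi.add_apply,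
      ha n, hb n]
    ring
  zero_mem' := by
    intro n
    rw [WithLp.zero_fst, WithLp.zero_snd, lp.coeFn_zero, lp.coeFn_zero]
    simp
  smul_mem' := by
    intro c a ha n
    rw [WithLp.smul_fst, WithLp.smul_snd, lp.coeFn_smul, lp.coeFn_smul, Pi.smul_apply,
      Pi.smul_apply, ha n, smul_eq_mul, smul_eq_mul]
    ring

lemma isClosed_ESub : IsClosed (ESub : Set (WithLp 1 (lp (fun _ : ℕ => ℝ) ∞ ×
    lp (fun _ : ℕ => ℝ) 2))) := by
  rw [← isSeqClosed_iff_isClosed]
  intro u p hu hlim n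
  have h1 : Tendsto (fun k => (u k).fst n) atTop (𝓝 (p.fst n)) := by
    rw [tendsto_iff_norm_sub_tendsto_zero] at hlim ⊢
    refine squeeze_zero (fun k => norm_nonneg _) (fun k => ?_) hlim
    have h2 := lp.norm_apply_le_norm (by simp : (∞ : ℝ≥0∞) ≠ 0) (u k - p).fst n
    rw [WithLp.sub_fst, lp.coeFn_sub, Pi.sub_apply] at h2
    refine h2.trans ?_
    rw [WithLp.prod_norm_eq_of_L1, WithLp.sub_fst]
    linarith [norm_nonneg (u k - p).snd]
  have h1' : Tendsto (fun k => (u k).snd n) atTop (𝓝 (p.snd n)) := by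
    rw [tendsto_iff_norm_sub_tendsto_zero] at hlim ⊢
    refine squeeze_zero (fun k => norm_nonneg _) (fun k => ?_) hlim
    have h2 := lp.norm_apply_le_norm (by simp : (2 : ℝ≥0∞) ≠ 0) (u k - p).snd n
    rw [WithLp.sub_snd, lp.coeFn_sub, Pi.sub_apply] at h2
    refine h2.trans ?_
    rw [WithLp.prod_norm_eq_of_L1, WithLp.sub_snd]
    linarith [norm_nonneg (u k - p).fst]
  have h3 : Tendsto (fun k => (u k).snd n) atTop (𝓝 ((1 / 2) ^ n * p.fst n)) := by
    have h4 := h1.const_mul ((1 / 2 : ℝ) ^ n)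
    refine h4.congr fun k => ?_
    exact (hu k n).symm
  exact tendsto_nhds_unique h1' h3

/-- The strictly convex space `E`. -/
def E : Type := ESub

noncomputable instance : NormedAddCommGroup E := inferInstanceAs (NormedAddCommGroup ESub)

noncomputable instance : NormedSpace ℝ E := inferInstanceAs (NormedSpace ℝ ESub)

instance : CompleteSpace E := isClosed_ESub.completeSpace_coe

/-- The Hilbert space part. -/
noncomputable def toH : E →ₗ[ℝ] lp (fun _ : ℕ => ℝ) 2 where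
  toFun w := w.1.snd
  map_add' _ _ := rfl
  map_smul' _ _ := rfl

/-- The supremum part. -/
noncomputable def toS : E →ₗ[ℝ] lp (fun _ : ℕ => ℝ) ∞ where
  toFun w := w.1.fst
  map_add' _ _ := rfl
  map_smul' _ _ := rfl

lemma norm_E (y : E) : ‖y‖ = ‖toS y‖ + ‖toH y‖ := WithLp.prod_norm_eq_of_L1 y.1

lemma toH_injective : Function.Injective toH := by
  rw [injective_iff_map_eq_zero]
  intro y hy
  have h1 : toS y = 0 := by
    apply Subtype.ext
    funext n
    have h2 : toH y n = (1 / 2) ^ n * toS y n := y.2 n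
    rw [hy, lp.coeFn_zero, Pi.zero_apply] at h2
    have h3 : ((1 : ℝ) / 2) ^ n ≠ 0 := by positivity
    exact (mul_eq_zero.1 h2.symm).resolve_left h3
  rw [← norm_le_zero_iff, norm_E, hy, h1]
  simp

instance : StrictConvexSpace ℝ E :=
  strictConvex_of toH toH_injective (fun y => ‖toS y‖) (fun x y => by
    rw [map_add]; exact norm_add_le _ _) norm_E

/-- The unit vectors. -/
noncomputable def uv (n : ℕ) : E :=
  (⟨WithLp.toLp 1 (lp.single ∞ n (1 : ℝ), lp.single 2 n ((1 / 2 : ℝ) ^ n)), by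
    intro m
    show (lp.single 2 n ((1 / 2 : ℝ) ^ n) : lp (fun _ : ℕ => ℝ) 2) m =
      (1 / 2) ^ m * (lp.single ∞ n (1 : ℝ) : lp (fun _ : ℕ => ℝ) ∞) m
    rw [lp.single_apply, lp.single_apply]
    by_cases h : m = n
    · subst h; simp
    · simp [h]⟩ : ESub)

lemma toS_uv (n m : ℕ) : toS (uv n) m = if m = n then 1 else 0 := by
  show (lp.single ∞ n (1 : ℝ) : lp (fun _ : ℕ => ℝ) ∞) m = _
  rw [lp.single_apply]
  by_cases h : m = n
  · subst h; simp
  · simp [h]

lemma norm_toH_uv (n : ℕ) : ‖toH (uv n)‖ = (1 / 2 : ℝ) ^ n := by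
  show ‖(lp.single 2 n ((1 / 2 : ℝ) ^ n) : lp (fun _ : ℕ => ℝ) 2)‖ = _
  rw [lp.norm_single (by norm_num)]
  rw [Real.norm_of_nonneg (by positivity)]

lemma norm_combo_le (n : ℕ) (a b : ℝ) {C : ℝ} (ha : |a| ≤ C) (hb : |b| ≤ C) :
    ‖a • uv n + b • uv (n + 1)‖ ≤ C * (1 + 2 * (1 / 2) ^ n) := by
  have hC : 0 ≤ C := (abs_nonneg a).trans ha
  rw [norm_E, map_add, map_smul, map_smul, map_add, map_smul, map_smul]
  have h1 : ‖a • toS (uv n) + b • toS (uv (n + 1))‖ ≤ C := by
    apply lp.norm_le_of_forall_le hC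
    intro m
    rw [lp.coeFn_add, Pi.add_apply, lp.coeFn_smul, lp.coeFn_smul, Pi.smul_apply, Pi.smul_apply,
      toS_uv, toS_uv, smul_eq_mul, smul_eq_mul, Real.norm_eq_abs]
    by_cases h : m = n
    · subst h
      simp [ha]
    · by_cases h' : m = n + 1
      · subst h'
        simp [hb]
      · simp [h, h', hC]
  have h2 : ‖a • toH (uv n) + b • toH (uv (n + 1))‖ ≤ C * (2 * (1 / 2) ^ n) := by
    refine (norm_add_le _ _).trans ?_
    rw [norm_smul, norm_smul, norm_toH_uv, norm_toH_uv, Real.norm_eq_abs, Real.norm_eq_abs]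
    have h3 : (0 : ℝ) ≤ (1 / 2) ^ n := by positivity
    have h4 : ((1 : ℝ) / 2) ^ (n + 1) ≤ (1 / 2) ^ n := by
      rw [pow_succ]; linarith
    calc |a| * (1 / 2) ^ n + |b| * (1 / 2) ^ (n + 1) ≤ C * (1 / 2) ^ n + C * (1 / 2) ^ n := by
          apply add_le_add
          · exact mul_le_mul_of_nonneg_right ha h3
          · exact mul_le_mul hb h4 (by positivity) hC
      _ = C * (2 * (1 / 2) ^ n) := by ring
  linarith

lemma le_norm_combo (n : ℕ) (a b : ℝ) : |a| ≤ ‖a • uv n + b • uv (n + 1)‖ ∧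
    |b| ≤ ‖a • uv n + b • uv (n + 1)‖ := by
  have hS : ∀ y : E, ‖toS y‖ ≤ ‖y‖ := fun y => by rw [norm_E]; linarith [norm_nonneg (toH y)]
  have h0 := hS (a • uv n + b • uv (n + 1))
  constructor
  · refine le_trans ?_ h0
    have h1 := lp.norm_apply_le_norm (by simp : (∞ : ℝ≥0∞) ≠ 0)
      (toS (a • uv n + b • uv (n + 1))) n
    rw [map_add, map_smul, map_smul, lp.coeFn_add, Pi.add_apply, lp.coeFn_smul, lp.coeFn_smul,
      Pi.smul_apply, Pi.smul_apply, toS_uv, toS_uv] at h1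
    simpa using h1
  · refine le_trans ?_ h0
    have h1 := lp.norm_apply_le_norm (by simp : (∞ : ℝ≥0∞) ≠ 0)
      (toS (a • uv n + b • uv (n + 1))) (n + 1)
    rw [map_add, map_smul, map_smul, lp.coeFn_add, Pi.add_apply, lp.coeFn_smul, lp.coeFn_smul,
      Pi.smul_apply, Pi.smul_apply, toS_uv, toS_uv] at h1
    simpa using h1

/-- The operators before normalisation. -/
noncomputable def Tn (n : ℕ) : X →L[ℝ] E :=
  LinearMap.toContinuousLinearMap
    { toFun := fun f : X => f (ofC Complex.I) • uv n + f (ofC (1 / 2)) • uv (n + 1)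
      map_add' := by
        intro a b
        rw [add_apply, add_apply, add_smul, add_smul]; abel
      map_smul' := by
        intro c a
        rw [smul_apply, smul_apply, smul_add, smul_smul, smul_smul]; rfl }

lemma Tn_apply (n : ℕ) (f : X) :
    Tn n f = f (ofC Complex.I) • uv n + f (ofC (1 / 2)) • uv (n + 1) := rfl

lemma norm_Tn_le (n : ℕ) : ‖Tn n‖ ≤ 1 + 2 * (1 / 2) ^ n := by
  apply ContinuousLinearMap.opNorm_le_bound _ (by positivity)
  intro f
  rw [Tn_apply, mul_comm]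
  apply norm_combo_le
  · have h := f.le_opNorm (ofC Complex.I)
    rw [norm_W, toC_ofC] at h
    simpa using h
  · have h := f.le_opNorm (ofC (1 / 2))
    rw [norm_W, toC_ofC] at h
    have e : |((1 : ℂ) / 2).re| + ‖(1 : ℂ) / 2‖ = 1 := by
      norm_num
    rw [e, mul_one] at h
    exact h

lemma Tn_fts (n : ℕ) (t s : ℝ) : Tn n (fts t s) = s • uv n + (t / 2) • uv (n + 1) := by
  rw [Tn_apply, fts_apply, fts_apply, toC_ofC, toC_ofC]
  congr 2
  · simp
  · norm_num
    ring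

lemma norm_inv_smul {A B : Type} [NormedAddCommGroup A] [NormedSpace ℝ A]
    [NormedAddCommGroup B] [NormedSpace ℝ B] (T : A →L[ℝ] B) (h : 0 < ‖T‖) :
    ‖(‖T‖⁻¹ • T : A →L[ℝ] B)‖ = 1 := by
  rw [norm_smul, norm_inv, norm_norm, inv_mul_cancel₀ h.ne']

lemma not_BPBp_E : ¬ BPBp X E := by
  intro h
  obtain ⟨η, hη, hB⟩ := h (1 / 8) (by norm_num)
  -- choose `n`
  have hlim : Tendsto (fun n : ℕ => 2 * (1 / 2 : ℝ) ^ n) atTop (𝓝 0) := by
    simpa using (tendsto_pow_atTop_nhds_zero_of_lt_one (by norm_num : (0 : ℝ) ≤ 1 / 2)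
      (by norm_num)).const_mul 2
  obtain ⟨n, hn⟩ := (hlim.eventually (Iio_mem_nhds (lt_min hη one_pos))).exists
  have hn' : 2 * (1 / 2 : ℝ) ^ n < min η 1 := hn
  have hn1 : 2 * (1 / 2 : ℝ) ^ n < η := hn'.trans_le (min_le_left _ _)
  have hn2 : 2 * (1 / 2 : ℝ) ^ n < 1 := hn'.trans_le (min_le_right _ _)
  set δ : ℝ := 2 * (1 / 2 : ℝ) ^ n with hδ
  have hδ0 : 0 < δ := by positivity
  set f₀ : X := fts 0 1 with hf₀
  have hf₀n : ‖f₀‖ = 1 := by rw [hf₀, norm_fts (by simp)]; simp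
  have hT1 : 1 ≤ ‖Tn n f₀‖ := by
    rw [hf₀, Tn_fts]
    have := (le_norm_combo n 1 (0 / 2)).1
    simpa using this
  have hTn1 : 1 ≤ ‖Tn n‖ := by
    have h1 := (Tn n).le_opNorm f₀
    rw [hf₀n, mul_one] at h1
    linarith
  have hTn2 : ‖Tn n‖ ≤ 1 + δ := norm_Tn_le n
  have hTn0 : 0 < ‖Tn n‖ := by linarith
  set lam : ℝ := ‖Tn n‖⁻¹ with hlam
  have hlam0 : 0 < lam := by positivity
  have hlam1 : 1 / 2 ≤ lam := by
    rw [hlam, one_div]
    exact inv_anti₀ hTn0 (by linarith)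
  have hlam2 : 1 - η < lam := by
    have h1 : (1 - δ) * ‖Tn n‖ ≤ 1 := by
      calc (1 - δ) * ‖Tn n‖ ≤ (1 - δ) * (1 + δ) :=
            mul_le_mul_of_nonneg_left hTn2 (by linarith)
        _ ≤ 1 := by nlinarith
    have h2 : 1 - δ ≤ lam := by
      rw [hlam, ← one_div, le_div_iff₀ hTn0]; exact h1
    linarith
  set T : X →L[ℝ] E := lam • Tn n with hT
  have hTnorm : ‖T‖ = 1 := by
    exact norm_inv_smul (Tn n) hTn0
  have hTf : 1 - η < ‖T f₀‖ := by
    rw [hT, smul_apply, norm_smul, Real.norm_of_nonneg hlam0.le]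
    nlinarith
  obtain ⟨x, S, hx, hS, hSx, hxf, hST⟩ := hB T hTnorm f₀ hf₀n hTf
  -- `x` lies in the interior of the flat face
  obtain ⟨t, s, rfl⟩ := fts_surj x
  have hdiff : fts t s - f₀ = fts t (s - 1) := by
    ext w
    rw [hf₀, sub_apply, fts_apply, fts_apply, fts_apply]; ring
  rw [hdiff] at hxf
  have hs : |s - 1| < 1 / 8 := by
    have h1 := (fts t (s - 1)).le_opNorm (ofC Complex.I)
    rw [fts_apply, norm_W, toC_ofC] at h1
    have h2 : |s - 1| ≤ ‖fts t (s - 1)‖ := by simpa using h1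
    linarith
  have ht : |t| < 1 / 4 := by
    have h1 := (fts t (s - 1)).le_opNorm (ofC (1 / 2))
    rw [fts_apply, norm_W, toC_ofC] at h1
    have e : |((1 : ℂ) / 2).re| + ‖(1 : ℂ) / 2‖ = 1 := by
      norm_num
    rw [e, mul_one] at h1
    have e2 : t * ((1 : ℂ) / 2).re + (s - 1) * ((1 : ℂ) / 2).im = t / 2 := by
      norm_num
      ring
    rw [e2, Real.norm_eq_abs, abs_div, abs_two] at h1
    linarith
  have hs' := abs_lt.1 hs
  have hspos : 0 < s := by linarith
  have hts : |t| ≤ |s| := by rw [abs_of_pos hspos]; linarith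
  have hs1 : s = 1 := by
    rw [norm_fts hts, abs_of_pos hspos] at hx
    exact hx
  subst hs1
  have ht' := abs_lt.1 ht
  -- the endpoints of the face
  have hu : ‖S (fts 1 1)‖ ≤ 1 := by
    have h1 := S.le_opNorm (fts 1 1)
    rwa [hS, one_mul, norm_fts le_rfl, abs_one] at h1
  have hv : ‖S (fts (-1) 1)‖ ≤ 1 := by
    have h1 := S.le_opNorm (fts (-1) 1)
    rwa [hS, one_mul, norm_fts (by simp), abs_one] at h1
  have hcombo : fts t 1 = ((1 + t) / 2) • fts 1 1 + ((1 - t) / 2) • fts (-1) 1 := by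
    ext w
    rw [add_apply, smul_apply, smul_apply, fts_apply, fts_apply, fts_apply, smul_eq_mul,
      smul_eq_mul]
    ring
  have hSeq : S (fts 1 1) = S (fts (-1) 1) := by
    by_contra hne
    have h1 := norm_combo_lt_of_ne hu hv hne (show 0 < (1 + t) / 2 by linarith)
      (show 0 < (1 - t) / 2 by linarith) (by ring)
    rw [hcombo, map_add, map_smul, map_smul] at hSx
    linarith
  -- but `T` separates them
  have hTd : 1 / 2 ≤ ‖T (fts 1 1 - fts (-1) 1)‖ := by
    rw [hT, smul_apply, map_sub, Tn_fts, Tn_fts, norm_smul, Real.norm_of_nonneg hlam0.le]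
    have e : (1 : ℝ) • uv n + ((1 : ℝ) / 2) • uv (n + 1) - ((1 : ℝ) • uv n +
        ((-1 : ℝ) / 2) • uv (n + 1)) = (0 : ℝ) • uv n + (1 : ℝ) • uv (n + 1) := by
      module
    rw [e]
    have h1 := (le_norm_combo n 0 1).2
    rw [abs_one] at h1
    nlinarith
  have hdn : ‖fts 1 1 - fts (-1) 1‖ ≤ 2 := by
    refine (norm_sub_le _ _).trans ?_
    rw [norm_fts le_rfl, norm_fts (by simp), abs_one]; norm_num
  have h1 : (S - T) (fts 1 1 - fts (-1) 1) = - T (fts 1 1 - fts (-1) 1) := by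
    rw [sub_apply, map_sub S, hSeq, sub_self, zero_sub]
  have h2 := (S - T).le_opNorm (fts 1 1 - fts (-1) 1)
  rw [h1, norm_neg] at h2
  have h3 : ‖S - T‖ * ‖fts 1 1 - fts (-1) 1‖ ≤ (1 / 8) * 2 :=
    mul_le_mul hST.le hdn (norm_nonneg _) (by norm_num)
  linarith

/-- Transfer along a surjective linear isometry. -/
lemma BPBp_of_equiv {X Y Z : Type} [NormedAddCommGroup X] [NormedSpace ℝ X]
    [NormedAddCommGroup Y] [NormedSpace ℝ Y] [NormedAddCommGroup Z] [NormedSpace ℝ Z]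
    (Φ : Y ≃ₗᵢ[ℝ] Z) (h : BPBp X Z) : BPBp X Y := by
  intro ε hε
  obtain ⟨η, hη, h1⟩ := h ε hε
  refine ⟨η, hη, fun T hT x₀ hx₀ hTx => ?_⟩
  have hn : ∀ R : X →L[ℝ] Y, ‖Φ.toLinearIsometry.toContinuousLinearMap.comp R‖ = ‖R‖ :=
    fun R => Φ.toLinearIsometry.norm_toContinuousLinearMap_comp
  have hn' : ∀ R : X →L[ℝ] Z, ‖Φ.symm.toLinearIsometry.toContinuousLinearMap.comp R‖ = ‖R‖ :=
    fun R => Φ.symm.toLinearIsometry.norm_toContinuousLinearMap_comp
  obtain ⟨x, S, hx, hS, hSx, hxx, hST⟩ := h1 (Φ.toLinearIsometry.toContinuousLinearMap.comp T)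
    (by rw [hn, hT]) x₀ hx₀ (by
      have : ‖(Φ.toLinearIsometry.toContinuousLinearMap.comp T) x₀‖ = ‖T x₀‖ := Φ.norm_map _
      rw [this]; exact hTx)
  refine ⟨x, Φ.symm.toLinearIsometry.toContinuousLinearMap.comp S, hx, by rw [hn', hS], ?_, hxx, ?_⟩
  · have : ‖(Φ.symm.toLinearIsometry.toContinuousLinearMap.comp S) x‖ = ‖S x‖ :=
      Φ.symm.norm_map _
    rw [this, hSx]
  · have e : Φ.symm.toLinearIsometry.toContinuousLinearMap.comp S - T =
        Φ.symm.toLinearIsometry.toContinuousLinearMap.comp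
          (S - Φ.toLinearIsometry.toContinuousLinearMap.comp T) := by
      ext z
      show Φ.symm (S z) - T z = Φ.symm (S z - Φ (T z))
      rw [map_sub, LinearIsometryEquiv.symm_apply_apply]
    rw [e, hn']
    exact hST

lemma BPBp_of_pointwise {X Y : Type} [NormedAddCommGroup X] [NormedSpace ℝ X]
    [NormedAddCommGroup Y] [NormedSpace ℝ Y] (h : PointwiseBPB X Y) : BPBp X Y := by
  intro ε hε
  obtain ⟨η, hη, h1⟩ := h ε hε
  refine ⟨η, hη, fun T hT x₀ hx₀ hTx => ?_⟩
  obtain ⟨S, hS, hSx, hST⟩ := h1 T hT x₀ hx₀ hTx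
  exact ⟨x₀, S, hx₀, hS, hSx, by rw [sub_self, norm_zero]; exact hε, hST⟩

/-- There are Banach spaces `X`, `Y` and a one-complemented subspace `Y₁` of `Y` (the range of a
norm-one projection `P`) such that `(X,Y)` has the pointwise BPB property and the BPBp, while
`(X,Y₁)` has neither of them. -/
theorem result : ∃ (X Y : Type) (_ : NormedAddCommGroup X) (_ : NormedSpace ℝ X)
    (_ : CompleteSpace X) (_ : NormedAddCommGroup Y) (_ : NormedSpace ℝ Y) (_ : CompleteSpace Y)
    (P : Y →L[ℝ] Y), P.comp P = P ∧ ‖P‖ = 1 ∧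
      PointwiseBPB X Y ∧ ¬ PointwiseBPB X (LinearMap.range P.toLinearMap) ∧
      BPBp X Y ∧ ¬ BPBp X (LinearMap.range P.toLinearMap) := by
  have hno : ¬ BPBp X (LinearMap.range (P (E := E)).toLinearMap) := fun h =>
    not_BPBp_E (BPBp_of_equiv (LinearIsometryEquiv.ofSurjective incl incl_surj) h)
  have hyes : PointwiseBPB X (YY E) := pointwise_of_func func_X
  refine ⟨X, YY E, inferInstance, inferInstance, inferInstance, inferInstance, inferInstance,
    inferInstance, P, ?_, ?_, hyes, fun h => hno (BPBp_of_pointwise h),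
    BPBp_of_pointwise hyes, hno⟩
  · ext p
    rfl
  · apply le_antisymm (LinearMap.mkContinuous_norm_le _ zero_le_one _)
    have h1 := (P (E := E)).le_opNorm (inY (uv 0))
    rw [P_inY] at h1
    have h2 : 0 < ‖inY (uv 0)‖ := by
      have h3 : ‖uv 0‖ ≤ ‖inY (uv 0)‖ := le_norm_inY _
      have h4 := (le_norm_combo 0 1 0).1
      rw [one_smul, zero_smul, add_zero, abs_one] at h4
      linarith
    exact le_of_mul_le_mul_right (by rw [one_mul]; exact h1) h2

end Pool.Agent.Results.MP_7aa09c_an.OneComplementedRange
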